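import Pool.Agent.Helper44.GH.Stmts
import Pool.Agent.Helper67.LB.PLn

open Finset MeasureTheory Filter Topology Matrix
open scoped ENNReal ContDiff

namespace Pool.Agent.Helper44.GH

open Pool.Agent.Helper44.GF Pool.Agent.Helper44.GN

section LCFaux

variable {n m : ℕ} {Y : Type} [Fintype Y] [DecidableEq Y]

theorem lcf_tau {δ : ℝ} {r : Y → ℝ} (hδ : 0 < δ) (hr : ∀ y, 0 < r y)
    (η : Finset (Fin n × Y)) : tau δ r η ∈ Og n := by
  intro x
  unfold tau
  have : 0 ≤ ∑ y, if (x, y) ∈ η then r y else 0 :=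
    Finset.sum_nonneg fun y _ => by split_ifs; exacts [(hr y).le, le_refl _]
  linarith

theorem lcf_MA1 : MA (fun _ : Fin n → ℝ => (1 : ℝ)) := by
  intro y _ i
  exact ⟨0, fun s _ => by ring⟩

/-- The weights of the density. -/
noncomputable def lcA (V : Matrix (Fin n) (Fin m) ℝ) (δ : ℝ) (r z : Y → ℝ) (i : Fin n)
    (η : Finset (Fin n × Y)) (t : ℝ) : ℝ :=
  W1 V δ r z η * (1 / √Real.pi * (hh V (tau δ r η) i) ^ (-(1 / 2) : ℝ)
    * Real.exp (-(t ^ 2 / hh V (tau δ r η) i)))

theorem lcf_fd (V : Matrix (Fin n) (Fin m) ℝ) (δ : ℝ) (r z : Y → ℝ) (i : Fin n) (t : ℝ) :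
    fd V δ r z i t = (∑ η, lcA V δ r z i η t) / MS V δ r z := rfl

variable {s ζ δ : ℝ} {r z : Y → ℝ} (V : Matrix (Fin n) (Fin m) ℝ)

theorem lcf_qf (hU : ST_UPD) (hM : MD s ζ δ r z) (hV : Function.Injective V.mulVec)
    (η : Finset (Fin n × Y)) : 0 < qf V (tau δ r η) := by
  by_cases hn : Nonempty (Fin n)
  · obtain ⟨i⟩ := hn
    exact (hU n m V V hV _ (lcf_tau hM.d0 hM.r0 η) i 0 le_rfl).2.1
  · have hm : m = 0 := by
      by_contra h
      have : Nonempty (Fin m) := ⟨⟨0, Nat.pos_of_ne_zero h⟩⟩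
      obtain ⟨j⟩ := this
      have h0 : V.mulVec (Pi.single j 1) = V.mulVec 0 := by
        funext i
        exact absurd ⟨i⟩ hn
      have := congrFun (hV h0) j
      simp at this
    subst hm
    unfold qf
    rw [Matrix.det_isEmpty]
    exact one_pos

theorem lcf_hh (hU : ST_UPD) (hM : MD s ζ δ r z) (hV : Function.Injective V.mulVec) (i : Fin n)
    (hi : V i ≠ 0) (η : Finset (Fin n × Y)) : 0 < hh V (tau δ r η) i := by
  obtain ⟨-, -, h1, h2, -⟩ := hU n m V V hV _ (lcf_tau hM.d0 hM.r0 η) i 0 le_rfl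
  exact lt_of_le_of_ne h1 fun h => hi (h2 h.symm)

theorem lcf_zw (hM : MD s ζ δ r z) (η : Finset (Fin n × Y)) : 0 < zw z η :=
  Finset.prod_pos fun x _ => hM.z0 x.2

theorem lcf_W1 (hU : ST_UPD) (hM : MD s ζ δ r z) (hV : Function.Injective V.mulVec)
    (η : Finset (Fin n × Y)) : 0 < W1 V δ r z η :=
  mul_pos (lcf_zw hM η) (Real.rpow_pos_of_pos (lcf_qf V hU hM hV η) _)

theorem lcf_A (hU : ST_UPD) (hM : MD s ζ δ r z) (hV : Function.Injective V.mulVec) (i : Fin n)
    (hi : V i ≠ 0) (η : Finset (Fin n × Y)) (t : ℝ) : 0 < lcA V δ r z i η t := by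
  have h1 := lcf_W1 V hU hM hV η
  have h2 := Real.rpow_pos_of_pos (lcf_hh V hU hM hV i hi η) (-(1 / 2) : ℝ)
  unfold lcA
  have h3 : (0 : ℝ) < √Real.pi := Real.sqrt_pos.2 Real.pi_pos
  positivity

theorem lcf_MS (hU : ST_UPD) (hM : MD s ζ δ r z) (hV : Function.Injective V.mulVec) :
    0 < MS V δ r z :=
  Finset.sum_pos (fun η _ => lcf_W1 V hU hM hV η) ⟨∅, Finset.mem_univ _⟩

theorem lcf_cont (i : Fin n) : Continuous (fd V δ r z i) := by
  have : fd V δ r z i = fun t => (∑ η, lcA V δ r z i η t) / MS V δ r z := by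
    funext t; exact lcf_fd V δ r z i t
  rw [this]
  unfold lcA
  fun_prop

theorem lcf_G0 : 0 ≤ G0 m := integral_nonneg fun x => (Real.exp_pos _).le

/-- The law of `|v_i · x|` for the measure `exp (-∑ g)`. -/
theorem lcf_key (hU : ST_UPD) (hP : ST_PE) (h1 : ST_GL1) (hM : MD s ζ δ r z)
    (hV : Function.Injective V.mulVec) (i : Fin n) (hi : V i ≠ 0) (φ : ℝ → ℝ≥0∞)
    (hφ : Measurable φ) :
    ∫⁻ x : Fin m → ℝ, φ |V.mulVec x i|
        * ENNReal.ofReal (Real.exp (-∑ j, gg δ r z (V.mulVec x j)))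
      = ENNReal.ofReal (2 * G0 m * MS V δ r z / (∏ y, (1 + z y)) ^ n)
        * ∫⁻ t in Set.Ioi (0 : ℝ), φ t * ENNReal.ofReal (fd V δ r z i t) := by
  obtain ⟨Kp, hKp⟩ : ∃ Kp, Kp = (∏ y, (1 + z y)) ^ n := ⟨_, rfl⟩
  have hK : 0 < Kp := by
    rw [hKp]
    exact pow_pos (Finset.prod_pos fun y _ => by linarith [hM.z0 y]) n
  rw [← hKp]
  have hMS := lcf_MS V hU hM hV
  have hG := lcf_G0 (m := m)
  have e1 : ∀ x : Fin m → ℝ, Real.exp (-∑ j, gg δ r z (V.mulVec x j))
      = ∑ η : Finset (Fin n × Y), zw z η / Kp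
        * Real.exp (-∑ j, tau δ r η j * (V.mulVec x j) ^ 2) := by
    intro x
    have h := hP n Y δ r z hM.d0 hM.r0 hM.z0 (fun _ => 1) lcf_MA1 (fun j => (V.mulVec x j) ^ 2)
    rw [← hKp] at h
    simp only [mul_one] at h
    have h' : Real.exp (-∑ j, gg δ r z (V.mulVec x j))
        = Real.exp (-∑ j, lam δ r z ((V.mulVec x j) ^ 2)) := rfl
    rw [h']
    have h'' : ∑ η : Finset (Fin n × Y), zw z η / Kp
        * Real.exp (-∑ j, tau δ r η j * (V.mulVec x j) ^ 2)
        = (∑ η : Finset (Fin n × Y), zw z η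
        * Real.exp (-∑ j, tau δ r η j * (V.mulVec x j) ^ 2)) / Kp := by
      rw [Finset.sum_div]
      exact Finset.sum_congr rfl fun η _ => by ring
    rw [h'', h]
    field_simp
  have hme : ∀ η : Finset (Fin n × Y), Measurable (fun x : Fin m → ℝ => φ |V.mulVec x i|
      * ENNReal.ofReal (Real.exp (-∑ j, tau δ r η j * (V.mulVec x j) ^ 2))) := by
    intro η
    have c0 : ∀ j, Continuous fun x : Fin m → ℝ => V.mulVec x j := by
      intro j
      unfold Matrix.mulVec dotProduct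
      fun_prop
    refine Measurable.mul (hφ.comp ((c0 i).abs.measurable)) ?_
    refine ENNReal.measurable_ofReal.comp ?_
    refine Continuous.measurable ?_
    refine Real.continuous_exp.comp ?_
    refine Continuous.neg ?_
    exact continuous_finsetSum _ fun j _ => continuous_const.mul ((c0 j).pow 2)
  have l1 : ∫⁻ x : Fin m → ℝ, φ |V.mulVec x i|
        * ENNReal.ofReal (Real.exp (-∑ j, gg δ r z (V.mulVec x j)))
      = ∑ η : Finset (Fin n × Y), ENNReal.ofReal (zw z η / Kp)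
        * ∫⁻ x : Fin m → ℝ, φ |V.mulVec x i|
          * ENNReal.ofReal (Real.exp (-∑ j, tau δ r η j * (V.mulVec x j) ^ 2)) := by
    have : ∀ x : Fin m → ℝ, φ |V.mulVec x i|
        * ENNReal.ofReal (Real.exp (-∑ j, gg δ r z (V.mulVec x j)))
        = ∑ η : Finset (Fin n × Y), ENNReal.ofReal (zw z η / Kp) * (φ |V.mulVec x i|
          * ENNReal.ofReal (Real.exp (-∑ j, tau δ r η j * (V.mulVec x j) ^ 2))) := by
      intro x
      rw [e1, ENNReal.ofReal_sum_of_nonneg, Finset.mul_sum]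
      · refine Finset.sum_congr rfl fun η _ => ?_
        rw [ENNReal.ofReal_mul (div_pos (lcf_zw hM η) hK).le]
        ring
      · intro η _
        exact mul_nonneg (div_pos (lcf_zw hM η) hK).le (Real.exp_pos _).le
    simp_rw [this]
    rw [lintegral_finsetSum]
    · refine Finset.sum_congr rfl fun η _ => ?_
      rw [lintegral_const_mul _ (hme η)]
    · intro η _
      exact (hme η).const_mul _
  rw [l1]
  have hmr : ∀ η : Finset (Fin n × Y), Measurable (fun t : ℝ => φ t
      * ENNReal.ofReal (2 / √Real.pi * (hh V (tau δ r η) i) ^ (-(1 / 2) : ℝ)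
        * Real.exp (-(t ^ 2 / hh V (tau δ r η) i)))) := by
    intro η
    refine hφ.mul (ENNReal.measurable_ofReal.comp (Continuous.measurable ?_))
    fun_prop
  have l2 : ∀ t : ℝ, ENNReal.ofReal (2 * G0 m * MS V δ r z / Kp)
        * (φ t * ENNReal.ofReal (fd V δ r z i t))
      = ∑ η : Finset (Fin n × Y), ENNReal.ofReal (zw z η / Kp)
        * (ENNReal.ofReal (G0 m * (qf V (tau δ r η)) ^ (-(1 / 2) : ℝ))
        * (φ t * ENNReal.ofReal (2 / √Real.pi * (hh V (tau δ r η) i) ^ (-(1 / 2) : ℝ)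
        * Real.exp (-(t ^ 2 / hh V (tau δ r η) i))))) := by
    intro t
    have hC : 0 ≤ 2 * G0 m * MS V δ r z / Kp := by positivity
    have a1 : ENNReal.ofReal (2 * G0 m * MS V δ r z / Kp)
        * (φ t * ENNReal.ofReal (fd V δ r z i t))
        = φ t * ENNReal.ofReal (2 * G0 m * MS V δ r z / Kp * fd V δ r z i t) := by
      rw [ENNReal.ofReal_mul hC]
      ring
    have a2 : 2 * G0 m * MS V δ r z / Kp * fd V δ r z i t
        = ∑ η : Finset (Fin n × Y), zw z η / Kp * ((G0 m * (qf V (tau δ r η)) ^ (-(1 / 2) : ℝ))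
          * (2 / √Real.pi * (hh V (tau δ r η) i) ^ (-(1 / 2) : ℝ)
          * Real.exp (-(t ^ 2 / hh V (tau δ r η) i)))) := by
      rw [lcf_fd]
      have : 2 * G0 m * MS V δ r z / Kp * ((∑ η, lcA V δ r z i η t) / MS V δ r z)
          = 2 * G0 m / Kp * ∑ η, lcA V δ r z i η t := by
        field_simp
      rw [this, Finset.mul_sum]
      refine Finset.sum_congr rfl fun η _ => ?_
      unfold lcA W1
      ring
    rw [a1, a2, ENNReal.ofReal_sum_of_nonneg, Finset.mul_sum]
    · refine Finset.sum_congr rfl fun η _ => ?_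
      have b1 := (div_pos (lcf_zw hM η) hK).le
      have b2 : 0 ≤ G0 m * (qf V (tau δ r η)) ^ (-(1 / 2) : ℝ) :=
        mul_nonneg hG (Real.rpow_pos_of_pos (lcf_qf V hU hM hV η) _).le
      rw [ENNReal.ofReal_mul b1, ENNReal.ofReal_mul b2]
      ring
    · intro η _
      have b1 := (div_pos (lcf_zw hM η) hK).le
      have b2 := (Real.rpow_pos_of_pos (lcf_qf V hU hM hV η) (-(1 / 2) : ℝ)).le
      have b3 := (Real.rpow_pos_of_pos (lcf_hh V hU hM hV i hi η) (-(1 / 2) : ℝ)).le
      positivity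
  have l3 : ENNReal.ofReal (2 * G0 m * MS V δ r z / Kp)
        * ∫⁻ t in Set.Ioi (0 : ℝ), φ t * ENNReal.ofReal (fd V δ r z i t)
      = ∑ η : Finset (Fin n × Y), ENNReal.ofReal (zw z η / Kp)
        * (ENNReal.ofReal (G0 m * (qf V (tau δ r η)) ^ (-(1 / 2) : ℝ))
        * ∫⁻ t in Set.Ioi (0 : ℝ), φ t * ENNReal.ofReal (2 / √Real.pi
          * (hh V (tau δ r η) i) ^ (-(1 / 2) : ℝ)
          * Real.exp (-(t ^ 2 / hh V (tau δ r η) i)))) := by
    rw [← lintegral_const_mul]
    · simp_rw [l2]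
      rw [lintegral_finsetSum]
      · refine Finset.sum_congr rfl fun η _ => ?_
        rw [lintegral_const_mul _ ((hmr η).const_mul _), lintegral_const_mul _ (hmr η)]
      · intro η _
        exact ((hmr η).const_mul _).const_mul _
    · exact hφ.mul (ENNReal.measurable_ofReal.comp (lcf_cont V i).measurable)
  rw [l3]
  refine Finset.sum_congr rfl fun η _ => ?_
  rw [h1 n m V hV _ (lcf_tau hM.d0 hM.r0 η) i hi φ hφ]

theorem lcf_conv {Y : Type} [Fintype Y] {s ζ δ : ℝ} {r z : Y → ℝ} (hS : ST_SLV) (hG : ST_GPO)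
    (hM : MD s ζ δ r z) : ConvexOn ℝ Set.univ (gg δ r z) := by
  have hS' := hS Y s ζ δ r z hM
  have hg : ∀ x, HasDerivAt (gg δ r z) (2 * x * ld δ r z (x ^ 2)) x := by
    intro x
    have h1 := (hS' (x ^ 2) (sq_nonneg x)).1
    have h2 : HasDerivAt (fun x : ℝ => x ^ 2) (2 * x) x := by
      refine (hasDerivAt_pow 2 x).congr_deriv ?_
      simp
    have h3 := HasDerivAt.comp (h := fun x : ℝ => x ^ 2) x h1 h2
    refine h3.congr_deriv ?_
    ring
  have hg1 : ∀ x, HasDerivAt (fun x => 2 * x * ld δ r z (x ^ 2)) (Dg δ r z x) x := by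
    intro x
    have h1 := (hS' (x ^ 2) (sq_nonneg x)).2.1
    have h2 : HasDerivAt (fun x : ℝ => x ^ 2) (2 * x) x := by
      refine (hasDerivAt_pow 2 x).congr_deriv ?_
      simp
    have h3 := HasDerivAt.comp (h := fun x : ℝ => x ^ 2) x h1 h2
    have h4 : HasDerivAt (fun x : ℝ => 2 * x) 2 x := by
      refine ((hasDerivAt_id x).const_mul 2).congr_deriv ?_
      ring
    have h5 := h4.mul h3
    refine h5.congr_deriv ?_
    unfold Dg
    simp only [Function.comp]
    ring
  apply convexOn_of_hasDerivWithinAt2_nonneg convex_univ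
    (f' := fun x => 2 * x * ld δ r z (x ^ 2)) (f'' := fun x => Dg δ r z x)
  · exact fun x _ => (hg x).continuousAt.continuousWithinAt
  · exact fun x _ => (hg x).hasDerivWithinAt
  · exact fun x _ => (hg1 x).hasDerivWithinAt
  · intro x _
    have := (hG Y s ζ δ r z hM).2.2.1 x
    have := hM.d0
    linarith

/-- The potential. -/
noncomputable def lcP (V : Matrix (Fin n) (Fin m) ℝ) (δ : ℝ) (r z : Y → ℝ) (x : Fin m → ℝ) : ℝ :=
  ∑ j, gg δ r z (V.mulVec x j)

/-- The restriction to a slab. -/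
noncomputable def lcF (V : Matrix (Fin n) (Fin m) ℝ) (δ : ℝ) (r z : Y → ℝ) (i : Fin n) (e t : ℝ)
    (x : Fin m → ℝ) : ℝ≥0∞ :=
  (Set.Icc t (t + e)).indicator (fun _ => (1 : ℝ≥0∞)) (V.mulVec x i)
    * ENNReal.ofReal (Real.exp (-lcP V δ r z x))

theorem lcf_Pconv (hS : ST_SLV) (hG : ST_GPO) (hM : MD s ζ δ r z) (x y : Fin m → ℝ) (a b : ℝ)
    (ha : 0 < a) (hb : 0 < b) (hab : a + b = 1) :
    lcP V δ r z (a • x + b • y) ≤ a * lcP V δ r z x + b * lcP V δ r z y := by
  unfold lcP
  rw [Finset.mul_sum, Finset.mul_sum, ← Finset.sum_add_distrib]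
  refine Finset.sum_le_sum fun j _ => ?_
  have h := (lcf_conv hS hG hM).2 (Set.mem_univ (V.mulVec x j)) (Set.mem_univ (V.mulVec y j))
    ha.le hb.le hab
  simp only [smul_eq_mul] at h
  rw [Matrix.mulVec_add, Matrix.mulVec_smul, Matrix.mulVec_smul]
  exact h

theorem lcf_meas (hG : ST_GPO) (hM : MD s ζ δ r z) (i : Fin n) (e t : ℝ) :
    Measurable (lcF V δ r z i e t) := by
  have c0 : ∀ j, Continuous fun x : Fin m → ℝ => V.mulVec x j := by
    intro j
    unfold Matrix.mulVec dotProduct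
    fun_prop
  have hc := (hG Y s ζ δ r z hM).1
  unfold lcF lcP
  refine Measurable.mul ?_ (ENNReal.measurable_ofReal.comp (Continuous.measurable ?_))
  · exact (measurable_one.indicator measurableSet_Icc).comp (c0 i).measurable
  · refine Real.continuous_exp.comp (Continuous.neg ?_)
    exact continuous_finsetSum _ fun j _ => hc.comp (c0 j)

theorem lcf_PL (hS : ST_SLV) (hG : ST_GPO) (hM : MD s ζ δ r z) (i : Fin n) (e t u a b : ℝ)
    (ha : 0 < a) (hb : 0 < b) (hab : a + b = 1) :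
    (∫⁻ x, lcF V δ r z i e t x) ^ a * (∫⁻ x, lcF V δ r z i e u x) ^ b
      ≤ ∫⁻ x, lcF V δ r z i e (a * t + b * u) x := by
  refine Pool.Agent.Helper67.LB.pl_pi m (lcf_meas V hG hM i e t) (lcf_meas V hG hM i e u)
    (lcf_meas V hG hM i e _) ha hb hab ?_
  intro x y
  by_cases hx : V.mulVec x i ∈ Set.Icc t (t + e)
  · by_cases hy : V.mulVec y i ∈ Set.Icc u (u + e)
    · have hxy : V.mulVec (a • x + b • y) i ∈ Set.Icc (a * t + b * u) (a * t + b * u + e) := by
        rw [Matrix.mulVec_add, Matrix.mulVec_smul, Matrix.mulVec_smul]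
        simp only [Pi.add_apply, Pi.smul_apply, smul_eq_mul]
        have hx1 := hx.1
        have hx2 := hx.2
        have hy1 := hy.1
        have hy2 := hy.2
        constructor
        · nlinarith
        · have h1 : a * (V.mulVec x i) ≤ a * (t + e) := mul_le_mul_of_nonneg_left hx2 ha.le
          have h2 : b * (V.mulVec y i) ≤ b * (u + e) := mul_le_mul_of_nonneg_left hy2 hb.le
          have h3 : a * e + b * e = e := by rw [← add_mul, hab, one_mul]
          linarith
      unfold lcF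
      rw [Set.indicator_of_mem hx, Set.indicator_of_mem hy, Set.indicator_of_mem hxy, one_mul,
        one_mul, one_mul, ENNReal.ofReal_rpow_of_pos (Real.exp_pos _),
        ENNReal.ofReal_rpow_of_pos (Real.exp_pos _), ← ENNReal.ofReal_mul (by positivity)]
      refine ENNReal.ofReal_le_ofReal ?_
      rw [← Real.exp_mul, ← Real.exp_mul, ← Real.exp_add]
      refine Real.exp_le_exp.2 ?_
      have := lcf_Pconv V hS hG hM x y a b ha hb hab
      linarith
    · have : lcF V δ r z i e u y = 0 := by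
        unfold lcF
        rw [Set.indicator_of_notMem hy, zero_mul]
      rw [this, ENNReal.zero_rpow_of_pos hb, mul_zero]
      exact zero_le
  · have : lcF V δ r z i e t x = 0 := by
      unfold lcF
      rw [Set.indicator_of_notMem hx, zero_mul]
    rw [this, ENNReal.zero_rpow_of_pos ha, zero_mul]
    exact zero_le

theorem lcf_half (hU : ST_UPD) (hP : ST_PE) (h1 : ST_GL1) (hG : ST_GPO) (hM : MD s ζ δ r z)
    (hV : Function.Injective V.mulVec) (i : Fin n) (hi : V i ≠ 0) (e t : ℝ) (ht : 0 < t) :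
    2 * ∫⁻ x, lcF V δ r z i e t x
      = ENNReal.ofReal (2 * G0 m * MS V δ r z / (∏ y, (1 + z y)) ^ n)
        * ∫⁻ v in Set.Icc t (t + e), ENNReal.ofReal (fd V δ r z i v) := by
  have hk := lcf_key V hU hP h1 hM hV i hi ((Set.Icc t (t + e)).indicator fun _ => (1 : ℝ≥0∞))
    (measurable_one.indicator measurableSet_Icc)
  have e1 : ∫⁻ v in Set.Ioi (0 : ℝ), (Set.Icc t (t + e)).indicator (fun _ => (1 : ℝ≥0∞)) v
      * ENNReal.ofReal (fd V δ r z i v)
      = ∫⁻ v in Set.Icc t (t + e), ENNReal.ofReal (fd V δ r z i v) := by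
    have : ∀ v, (Set.Icc t (t + e)).indicator (fun _ => (1 : ℝ≥0∞)) v
        * ENNReal.ofReal (fd V δ r z i v)
        = (Set.Icc t (t + e)).indicator (fun v => ENNReal.ofReal (fd V δ r z i v)) v := by
      intro v
      by_cases hv : v ∈ Set.Icc t (t + e)
      · rw [Set.indicator_of_mem hv, Set.indicator_of_mem hv, one_mul]
      · rw [Set.indicator_of_notMem hv, Set.indicator_of_notMem hv, zero_mul]
    simp_rw [this]
    rw [setLIntegral_indicator measurableSet_Icc]
    congr 2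
    refine Set.inter_eq_left.2 fun v hv => ?_
    exact lt_of_lt_of_le ht hv.1
  rw [e1] at hk
  rw [← hk]
  have e2 : ∀ x : Fin m → ℝ, (Set.Icc t (t + e)).indicator (fun _ => (1 : ℝ≥0∞)) |V.mulVec x i|
      * ENNReal.ofReal (Real.exp (-∑ j, gg δ r z (V.mulVec x j)))
      = lcF V δ r z i e t x + lcF V δ r z i e t (-x) := by
    intro x
    have n1 : V.mulVec (-x) = -(V.mulVec x) := Matrix.mulVec_neg x V
    have n2 : lcP V δ r z (-x) = lcP V δ r z x := by
      unfold lcP
      refine Finset.sum_congr rfl fun j _ => ?_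
      rw [n1]
      unfold gg
      simp
    unfold lcF
    rw [n2, n1, ← add_mul]
    congr 1
    rw [Pi.neg_apply]
    rcases le_or_gt 0 (V.mulVec x i) with hx | hx
    · rw [abs_of_nonneg hx]
      have : -(V.mulVec x i) ∉ Set.Icc t (t + e) := fun h => by linarith [h.1]
      rw [Set.indicator_of_notMem this, add_zero]
    · rw [abs_of_neg hx]
      have : V.mulVec x i ∉ Set.Icc t (t + e) := fun h => by linarith [h.1]
      rw [Set.indicator_of_notMem this, zero_add]
  simp_rw [e2]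
  rw [lintegral_add_left (lcf_meas V hG hM i e t), lintegral_neg_eq_self, two_mul]

theorem lcf_int (hU : ST_UPD) (hP : ST_PE) (h1 : ST_GL1) (hS : ST_SLV) (hG : ST_GPO)
    (hM : MD s ζ δ r z) (hV : Function.Injective V.mulVec) (i : Fin n) (hi : V i ≠ 0)
    (t u a b : ℝ) (ht : 0 < t) (hu : 0 < u) (ha : 0 < a) (hb : 0 < b) (hab : a + b = 1) (e : ℝ)
    (he : 0 < e) :
    ((∫ v in t..t + e, fd V δ r z i v) / e) ^ a * ((∫ v in u..u + e, fd V δ r z i v) / e) ^ b
      ≤ (∫ v in (a * t + b * u)..(a * t + b * u) + e, fd V δ r z i v) / e := by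
  obtain ⟨C, hC⟩ : ∃ C, C = ENNReal.ofReal (2 * G0 m * MS V δ r z / (∏ y, (1 + z y)) ^ n) :=
    ⟨_, rfl⟩
  have hfp : ∀ v, 0 < fd V δ r z i v := by
    intro v
    rw [lcf_fd]
    exact div_pos (Finset.sum_pos (fun η _ => lcf_A V hU hM hV i hi η v) ⟨∅, Finset.mem_univ _⟩)
      (lcf_MS V hU hM hV)
  have hfc : Continuous (fd V δ r z i) := lcf_cont V i
  have hJ : ∀ w : ℝ, ∫⁻ v in Set.Icc w (w + e), ENNReal.ofReal (fd V δ r z i v)
      = ENNReal.ofReal (∫ v in w..w + e, fd V δ r z i v) := by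
    intro w
    rw [intervalIntegral.integral_of_le (by linarith), ← integral_Icc_eq_integral_Ioc,
      ofReal_integral_eq_lintegral_ofReal]
    · exact hfc.continuousOn.integrableOn_Icc
    · exact Filter.Eventually.of_forall fun v => (hfp v).le
  have hI : ∀ w : ℝ, 0 < ∫ v in w..w + e, fd V δ r z i v := by
    intro w
    refine intervalIntegral.intervalIntegral_pos_of_pos (hfc.intervalIntegrable _ _)
      (fun v => hfp v) (by linarith)
  have hC0 : C ≠ 0 := by
    intro h0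
    have hk := lcf_key V hU hP h1 hM hV i hi (fun _ => (1 : ℝ≥0∞)) measurable_const
    rw [← hC, h0, zero_mul] at hk
    simp only [one_mul] at hk
    have hc := (hG Y s ζ δ r z hM).1
    have hm : Measurable fun x : Fin m → ℝ =>
        ENNReal.ofReal (Real.exp (-∑ j, gg δ r z (V.mulVec x j))) := by
      refine ENNReal.measurable_ofReal.comp (Continuous.measurable ?_)
      refine Real.continuous_exp.comp (Continuous.neg ?_)
      refine continuous_finsetSum _ fun j _ => hc.comp ?_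
      unfold Matrix.mulVec dotProduct
      fun_prop
    rw [lintegral_eq_zero_iff hm] at hk
    have h2 : ∀ᵐ x : Fin m → ℝ, False := by
      filter_upwards [hk] with x hx
      have : 0 < ENNReal.ofReal (Real.exp (-∑ j, gg δ r z (V.mulVec x j))) :=
        ENNReal.ofReal_pos.2 (Real.exp_pos _)
      rw [hx] at this
      exact absurd this (by simp)
    rw [Filter.eventually_false_iff_eq_bot, ae_eq_bot] at h2
    have h3 := congrArg (fun μ : Measure (Fin m → ℝ) => μ Set.univ) h2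
    simp only [Measure.coe_zero, Pi.zero_apply] at h3
    exact absurd h3 (isOpen_univ.measure_pos volume Set.univ_nonempty).ne'
  have hCt : C ≠ ⊤ := by rw [hC]; exact ENNReal.ofReal_ne_top
  have hpl := lcf_PL V hS hG hM i e t u a b ha hb hab
  have hq : 0 < a * t + b * u := by positivity
  have f1 : ∀ w, 0 < w → ∫⁻ x, lcF V δ r z i e w x
      = C / 2 * ENNReal.ofReal (∫ v in w..w + e, fd V δ r z i v) := by
    intro w hw
    have h := lcf_half V hU hP h1 hG hM hV i hi e w hw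
    rw [← hC, hJ] at h
    have h2 : (∫⁻ x, lcF V δ r z i e w x) = (2 * ∫⁻ x, lcF V δ r z i e w x) / 2 := by
      rw [mul_comm, mul_div_assoc, ENNReal.div_self (by simp) (by simp), mul_one]
    rw [h2, h, ENNReal.mul_div_right_comm]
  rw [f1 t ht, f1 u hu, f1 _ hq] at hpl
  have hc2 : C / 2 ≠ 0 := by
    rw [Ne, ENNReal.div_eq_zero_iff]
    push Not
    exact ⟨hC0, by simp⟩
  have hc3 : C / 2 ≠ ⊤ := ENNReal.div_ne_top hCt (by simp)
  rw [ENNReal.mul_rpow_of_nonneg _ _ ha.le, ENNReal.mul_rpow_of_nonneg _ _ hb.le] at hpl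
  have g1 : (C / 2) ^ a * ENNReal.ofReal (∫ v in t..t + e, fd V δ r z i v) ^ a
      * ((C / 2) ^ b * ENNReal.ofReal (∫ v in u..u + e, fd V δ r z i v) ^ b)
      = C / 2 * (ENNReal.ofReal (∫ v in t..t + e, fd V δ r z i v) ^ a
        * ENNReal.ofReal (∫ v in u..u + e, fd V δ r z i v) ^ b) := by
    have : C / 2 = (C / 2) ^ a * (C / 2) ^ b := by
      rw [← ENNReal.rpow_add _ _ hc2 hc3, hab, ENNReal.rpow_one]
    conv_rhs => rw [this]
    ring
  rw [g1, ENNReal.mul_le_mul_iff_right hc2 hc3, ENNReal.ofReal_rpow_of_pos (hI t),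
    ENNReal.ofReal_rpow_of_pos (hI u), ← ENNReal.ofReal_mul (Real.rpow_nonneg (hI t).le _),
    ENNReal.ofReal_le_ofReal_iff (hI _).le] at hpl
  rw [Real.div_rpow (hI t).le he.le, Real.div_rpow (hI u).le he.le, div_mul_div_comm,
    ← Real.rpow_add he, hab, Real.rpow_one]
  exact div_le_div_of_nonneg_right hpl he.le

theorem lcf_lim (f : ℝ → ℝ) (hf : Continuous f) (w : ℝ) :
    Tendsto (fun e : ℝ => (∫ v in w..w + e, f v) / e) (𝓝[>] 0) (𝓝 (f w)) := by
  have h1 : HasDerivAt (fun x => ∫ v in w..x, f v) (f w) w :=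
    intervalIntegral.integral_hasDerivAt_right (hf.intervalIntegrable _ _)
      (hf.stronglyMeasurableAtFilter _ _) hf.continuousAt
  have h2 := h1.tendsto_slope_zero_right
  refine h2.congr' ?_
  filter_upwards with e
  rw [intervalIntegral.integral_same, sub_zero, smul_eq_mul]
  ring

theorem st_LCF (hU : ST_UPD) (hP : ST_PE) (hS : ST_SLV) (hG : ST_GPO) (h1 : ST_GL1) :
    ST_LCF := by
  intro n m Y _ _ s ζ δ r z V hM hV i hi
  refine ⟨?_, lcf_cont V i, ?_⟩
  · intro t
    rw [lcf_fd]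
    exact div_pos (Finset.sum_pos (fun η _ => lcf_A V hU hM hV i hi η t) ⟨∅, Finset.mem_univ _⟩)
      (lcf_MS V hU hM hV)
  · intro t u a b ht hu ha hb hab
    have hc : Continuous (fd V δ r z i) := lcf_cont V i
    have l1 := lcf_lim _ hc t
    have l2 := lcf_lim _ hc u
    have l3 := lcf_lim _ hc (a * t + b * u)
    have l4 := (l1.rpow_const (Or.inr ha.le)).mul (l2.rpow_const (Or.inr hb.le))
    refine le_of_tendsto_of_tendsto l4 l3 ?_
    filter_upwards [self_mem_nhdsWithin] with e he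
    exact lcf_int V hU hP h1 hS hG hM hV i hi t u a b ht hu ha hb hab e he

end LCFaux

end Pool.Agent.Helper44.GH
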